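import Mathlib

set_option autoImplicit false

namespace Pool.Agent.Results.MP_28b4a6_lc.No

open Set Function Cardinal

/-- Martin's axiom for countable posets and aleph one dense sets -/
def MAc : Prop :=
  ∀ (R : Type) [Preorder R] [Countable R] [Nonempty R] (𝒟 : Set (Set R)), #𝒟 ≤ ℵ₁ →
    (∀ D ∈ 𝒟, ∀ p, ∃ d ∈ D, d ≤ p) → ∃ G : Set R, (∀ p ∈ G, ∀ q, p ≤ q → q ∈ G) ∧
      (∀ p ∈ G, ∀ q ∈ G, ∃ r ∈ G, r ≤ p ∧ r ≤ q) ∧ ∀ D ∈ 𝒟, (G ∩ D).Nonempty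

theorem result (h : MAc) (X : Type) (hX : #X ≤ ℵ₁) (c : Sym2 X → ℕ)
    (t : ∀ x y z, x ≠ y → y ≠ z → x ≠ z → ¬ (c s(x, y) = c s(y, z) ∧ c s(y, z) = c s(x, z))) :
    ∃ f : X → ℕ, ∀ x z, x ≠ z → ¬ (f x = f z ∧ f z = c s(x, z)) := by
  classical
  by_contra H
  have : ∀ n, ∃ W : Finset X, ∀ f : X → Fin (n + 1), ∃ x ∈ W, ∃ z ∈ W, x ≠ z ∧ f x = f z ∧
      (f z).1 = c s(x, z) := fun n => by
    by_contra! k
    choose g hg using k
    obtain ⟨f, hf⟩ := Finset.rado_selection g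
    refine H ⟨fun x => f x, fun x z e p => ?_⟩
    obtain ⟨W, w1, w2⟩ := hf {x, z}
    exact hg W x (w1 (by simp)) z (w1 (by simp)) e
      (w2 x (by simp) ▸ w2 z (by simp) ▸ Fin.ext p.1) (w2 z (by simp) ▸ p.2)
  choose W hW using this
  have : Nonempty X := let ⟨x, _⟩ := hW 0 0; ⟨x⟩
  obtain ⟨w, hw⟩ := countable_iff_exists_subset_range.1
    (countable_iUnion fun n => (W n).countable_toSet)
  have k : ∀ x n, ∃ i, w i ≠ x ∧ n ≤ c s(x, w i) := fun x n => by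
    by_contra! k
    have u : ∀ y ∈ W n, y ≠ x → c s(x, y) < n := fun y p =>
      let ⟨i, e⟩ := hw (mem_iUnion.2 ⟨n, p⟩); e ▸ k i
    obtain ⟨y, p, z, q, e, a, b⟩ := hW n fun y =>
      if y = x then Fin.last n else ⟨min (c s(x, y)) n, by omega⟩
    by_cases r : y = x <;> by_cases s : z = x <;> simp [r, s, Fin.ext_iff] at a b
    · exact e (r.trans s.symm)
    · have := u z q s; omega
    · have := u y p r; omega
    have := u z q s
    have := u y p r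
    exact t x y z (Ne.symm r) e (Ne.symm s) (by omega)
  let R := {s : Finset (ℕ × ℕ) // ∀ a ∈ s, ∀ b ∈ s, a.1 = b.1 → a = b}
  have : Nonempty R := ⟨⟨∅, by simp⟩⟩
  have : Countable Rᵒᵈ := inferInstanceAs (Countable R)
  obtain ⟨G, -, g1, g2⟩ := h Rᵒᵈ (range fun x => {s : R | ∃ a ∈ s.1, w a.2 ≠ x ∧
      c s(x, w a.2) = a.1}) (mk_range_le.trans hX) (by
    rintro _ ⟨x, rfl⟩ s
    obtain ⟨i, p, q⟩ := k x (s.1.sup Prod.fst + 1)
    have : ∀ a ∈ s.1, a.1 ≠ c s(x, w i) := fun a r => ((Finset.le_sup r).trans_lt q).ne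
    refine ⟨⟨insert (c s(x, w i), i) s.1, fun a u b v e => ?_⟩, ⟨_, Finset.mem_insert_self _ _,
      p, rfl⟩, Finset.subset_insert _ _⟩
    rcases Finset.mem_insert.1 u with rfl | u <;> rcases Finset.mem_insert.1 v with rfl | v
    exacts [rfl, (this _ v e.symm).elim, (this _ u e).elim, s.2 a u b v e])
  choose d d1 a a1 a2 a3 using fun x => g2 _ ⟨x, rfl⟩
  refine H ⟨fun x => (a x).1, fun x z e ⟨p, q⟩ => ?_⟩
  obtain ⟨r, -, r1, r2⟩ := g1 _ (d1 x) _ (d1 z)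
  have := r.2 _ (r1 (a1 x)) _ (r2 (a1 z)) p
  exact t x z (w (a z).2) e (a2 z).symm (this ▸ (a2 x).symm)
    ⟨q.symm.trans (a3 z).symm, (a3 z).trans (this ▸ (a3 x).symm)⟩

end Pool.Agent.Results.MP_28b4a6_lc.No
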